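import Pool.Agent.Helper1_Gen.Main

/-!
AEU, Part IV (a), (b): null sets lift through the spectrum.  If almost all convex `n`-gons have the
property `G`, then for almost all convex `n`-gons `v` every isospectral convex polygon with at most
`n` vertices has `n` vertices and is congruent to a polygon with the property `G`.
-/

namespace Pool.Agent.AEU.H1

open MeasureTheory Complex Filter Topology Pool.Agent.H16Iso Pool.Agent.H1Gen
open scoped InnerProductSpace

/-- NLIFT -/
def NLiftStatement : Prop :=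
  ∀ (n : ℕ), 3 ≤ n → ∀ G : (Fin n → ℂ) → Prop, (∀ᵐ v : Fin n → ℂ, CCW v → G v) →
    ∀ᵐ v : Fin n → ℂ, CCW v → G v ∧ ∀ (m : ℕ), 3 ≤ m → m ≤ n → ∀ w : Fin m → ℂ, CCW w →
      (∀ k, dirEig (poly w) k = dirEig (poly v) k) →
      ∃ h : m = n, ∃ a u : ℂ, ‖u‖ = 1 ∧ G (fun i => a + u * w (Fin.cast h.symm i))

/-! ### Isometric copies -/

theorem ccw_copy {n : ℕ} {w : Fin n → ℂ} (hw : CCW w) (a : ℂ) {u : ℂ} (hu : ‖u‖ = 1) :
    CCW (fun i => a + u * w i) := by
  intro i j k hij hjk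
  have e1 : (a + u * w j) - (a + u * w i) = (w j - w i) * u := by ring
  have e2 : (a + u * w k) - (a + u * w i) = (w k - w i) * u := by ring
  simp only
  rw [e1, e2, det_rot hu]
  exact hw i j k hij hjk

theorem poly_copy {n : ℕ} (w : Fin n → ℂ) (a : ℂ) {u : ℂ} (hu : ‖u‖ = 1) :
    poly (fun i => a + u * w i) = rig hu a '' poly w := by
  rw [← poly_rig]
  congr 1
  funext i
  rw [rig_apply]
  ring

theorem congruent_copy {n : ℕ} (w : Fin n → ℂ) (a : ℂ) {u : ℂ} (hu : ‖u‖ = 1) :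
    Congruent (poly w) (poly fun i => a + u * w i) :=
  ⟨rig hu a, (poly_copy w a hu).symm⟩

theorem dirEig_copy {n : ℕ} (w : Fin n → ℂ) (a : ℂ) {u : ℂ} (hu : ‖u‖ = 1) (k : ℕ) :
    dirEig (poly fun i => a + u * w i) k = dirEig (poly w) k := by
  rw [poly_copy w a hu, dirEig_rig]

/-! ### All positions of the polygons in normal position -/

/-- the vertices of the polygon `e` depend linearly on `e` -/
noncomputable def svL {m : ℕ} (i : Fin (m + 3)) : Par m →L[ℝ] ℂ :=
  LinearMap.toContinuousLinearMap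
    { toFun := fun e => sv e i
      map_add' := by
        intro e f
        refine Fin.cases ?_ (fun i => Fin.cases ?_ (fun j => ?_) i) i
        · simp [sv]
        · simp [sv, fan]
        · simp [sv, fan]
      map_smul' := by
        intro c e
        refine Fin.cases ?_ (fun i => Fin.cases ?_ (fun j => ?_) i) i
        · simp [sv]
        · simp [sv, fan]
        · simp [sv, fan] }

theorem svL_apply {m : ℕ} (i : Fin (m + 3)) (e : Par m) : svL i e = sv e i := rfl

/-- the polygon `p.2`, rotated by the angle `p.1.1` and translated by `p.1.2` -/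
noncomputable def mot {m : ℕ} (p : (ℝ × ℂ) × Par m) (i : Fin (m + 3)) : ℂ :=
  p.1.2 + Complex.exp (p.1.1 * I) * sv p.2 i

theorem analyticAt_mot {m : ℕ} (p : (ℝ × ℂ) × Par m) : AnalyticAt ℝ (mot (m := m)) p := by
  rw [show (mot (m := m)) = fun p i => p.1.2 + Complex.exp (p.1.1 * I) * svL i p.2 from rfl]
  refine analyticAt_pi_iff.2 fun i => ?_
  have h1 : AnalyticAt ℝ (fun p : (ℝ × ℂ) × Par m => p.1.2) p :=
    ((ContinuousLinearMap.snd ℝ ℝ ℂ).comp (ContinuousLinearMap.fst ℝ (ℝ × ℂ) (Par m))).analyticAt p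
  have h2 : AnalyticAt ℝ (fun p : (ℝ × ℂ) × Par m => (p.1.1 : ℂ)) p :=
    ((Complex.ofRealCLM.comp (ContinuousLinearMap.fst ℝ ℝ ℂ)).comp
      (ContinuousLinearMap.fst ℝ (ℝ × ℂ) (Par m))).analyticAt p
  have h3 : AnalyticAt ℝ (fun p : (ℝ × ℂ) × Par m => svL i p.2) p :=
    ((svL i).comp (ContinuousLinearMap.snd ℝ (ℝ × ℂ) (Par m))).analyticAt p
  have h4 : AnalyticAt ℝ (fun p : (ℝ × ℂ) × Par m => Complex.exp (p.1.1 * I)) p :=
    ((analyticAt_cexp (z := (p.1.1 * I))).restrictScalars (𝕜 := ℝ)).comp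
      (f := fun p : (ℝ × ℂ) × Par m => (p.1.1 * I : ℂ)) (h2.mul analyticAt_const)
  exact h1.add (h4.mul h3)

theorem fderiv_mot {m : ℕ} (e v : (ℝ × ℂ) × Par m) (he : e.1.1 = 0) (i : Fin (m + 3)) :
    fderiv ℝ (mot (m := m)) e v i = v.1.2 + I * v.1.1 * sv e.2 i + sv v.2 i := by
  have h1 : HasFDerivAt (fun p : (ℝ × ℂ) × Par m => p.1.2)
      ((ContinuousLinearMap.snd ℝ ℝ ℂ).comp (ContinuousLinearMap.fst ℝ (ℝ × ℂ) (Par m))) e :=
    ((ContinuousLinearMap.snd ℝ ℝ ℂ).comp
      (ContinuousLinearMap.fst ℝ (ℝ × ℂ) (Par m))).hasFDerivAt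
  have h2 : HasFDerivAt (fun p : (ℝ × ℂ) × Par m => (p.1.1 : ℂ))
      ((Complex.ofRealCLM.comp (ContinuousLinearMap.fst ℝ ℝ ℂ)).comp
        (ContinuousLinearMap.fst ℝ (ℝ × ℂ) (Par m))) e :=
    ((Complex.ofRealCLM.comp (ContinuousLinearMap.fst ℝ ℝ ℂ)).comp
      (ContinuousLinearMap.fst ℝ (ℝ × ℂ) (Par m))).hasFDerivAt
  have h3 : HasFDerivAt (fun p : (ℝ × ℂ) × Par m => svL i p.2)
      ((svL i).comp (ContinuousLinearMap.snd ℝ (ℝ × ℂ) (Par m))) e :=
    ((svL i).comp (ContinuousLinearMap.snd ℝ (ℝ × ℂ) (Par m))).hasFDerivAt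
  have h4 := (h2.mul_const I).cexp.fun_mul h3
  have h5 := h1.fun_add h4
  have h6 : DifferentiableAt ℝ (mot (m := m)) e := (analyticAt_mot e).differentiableAt
  have h7 : fderiv ℝ (fun p => mot (m := m) p i) e v = fderiv ℝ (mot (m := m)) e v i := by
    have h8 : HasFDerivAt (fun p => mot (m := m) p i) ((ContinuousLinearMap.proj i).comp
        (fderiv ℝ (mot (m := m)) e)) e := hasFDerivAt_pi'.1 h6.hasFDerivAt i
    rw [h8.fderiv]
    rfl
  rw [← h7, show (fun p => mot (m := m) p i) = fun p : (ℝ × ℂ) × Par m =>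
    p.1.2 + Complex.exp (p.1.1 * I) * svL i p.2 from rfl, h5.fderiv]
  simp [he, svL_apply]
  ring

/-- a linear identification -/
noncomputable def idv (m : ℕ) : (Fin (m + 3) → ℂ) ≃L[ℝ] ((ℝ × ℂ) × Par m) :=
  ContinuousLinearEquiv.ofFinrankEq (by
    rw [Module.finrank_prod, Module.finrank_prod, finrank_Par, Module.finrank_pi_fintype]
    simp [Complex.finrank_real_complex]
    ring)

/-- preimages of null sets under the map of all positions are null sets -/
theorem mot_null {m : ℕ} {N : Set (Fin (m + 3) → ℂ)} (hN : volume N = 0) :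
    (volume : Measure ((ℝ × ℂ) × Par m)) {p | 0 < p.2.1 ∧ mot p ∈ N} = 0 := by
  haveI : (volume : Measure (ℝ × ℂ)).IsAddHaarMeasure := Measure.prod.instIsAddHaarMeasure _ _
  haveI : (volume : Measure ((ℝ × ℂ) × Par m)).IsAddHaarMeasure :=
    Measure.prod.instIsAddHaarMeasure _ _
  set U : Set ((ℝ × ℂ) × Par m) := {p | 0 < p.2.1} with hU
  have hUo : IsOpen U := isOpen_lt continuous_const (by fun_prop)
  have hUc : Convex ℝ U := by
    intro p hp q hq a b ha hb hab
    simp only [hU, Set.mem_ofPred_eq] at hp hq ⊢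
    simp only [Prod.snd_add, Prod.smul_snd, Prod.fst_add, Prod.smul_fst, smul_eq_mul]
    rcases eq_or_lt_of_le ha with h | h
    · have : b = 1 := by linarith
      rw [← h, this]
      linarith
    · have h1 := mul_pos h hp
      have h2 := mul_nonneg hb hq.le
      linarith
  have hF : AnalyticOnNhd ℝ (fun p : (ℝ × ℂ) × Par m => idv m (mot p)) U := fun p _ =>
    ((idv m : (Fin (m + 3) → ℂ) →L[ℝ] ((ℝ × ℂ) × Par m)).analyticAt _).comp (analyticAt_mot p)
  have hne : ∃ e ∈ U, (fderiv ℝ (fun p : (ℝ × ℂ) × Par m => idv m (mot p)) e).det ≠ 0 := by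
    refine ⟨((0, 0), (1, 0)), by simp [hU], ?_⟩
    rw [det_ne_zero_iff, injective_iff_map_eq_zero]
    intro v hv
    have h1 : HasFDerivAt (fun p : (ℝ × ℂ) × Par m => idv m (mot p))
        (((idv m : (Fin (m + 3) → ℂ) →L[ℝ] ((ℝ × ℂ) × Par m))).comp
          (fderiv ℝ (mot (m := m)) ((0, 0), (1, 0)))) ((0, 0), (1, 0)) :=
      (idv m : (Fin (m + 3) → ℂ) →L[ℝ] ((ℝ × ℂ) × Par m)).hasFDerivAt.comp _
        (analyticAt_mot _).differentiableAt.hasFDerivAt
    rw [h1.fderiv] at hv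
    have h2 : fderiv ℝ (mot (m := m)) ((0, 0), (1, 0)) v = 0 := by
      apply (idv m).injective
      rw [map_zero]
      exact hv
    have h3 : ∀ i, v.1.2 + I * v.1.1 * sv (m := m) (1, 0) i + sv v.2 i = 0 := fun i => by
      rw [← fderiv_mot ((0, 0), (1, 0)) v rfl i, h2]
      rfl
    have h4 : v.1.2 = 0 := by simpa [sv] using h3 0
    have h5 : I * v.1.1 + (v.2.1 : ℂ) = 0 := by
      have := h3 (Fin.succ 0)
      simpa [sv, fan, h4] using this
    have h6 : v.1.1 = 0 := by simpa using congrArg Complex.im h5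
    have h7 : v.2.1 = 0 := by simpa using congrArg Complex.re h5
    have h8 : v.2.2 = 0 := by
      funext j
      have := h3 (Fin.succ (Fin.succ j))
      simpa [sv, fan, h4, h6] using this
    exact Prod.ext (Prod.ext h6 h4) (Prod.ext h7 h8)
  have h9 : (volume : Measure ((ℝ × ℂ) × Par m)) ((idv m) '' N) = 0 := by
    have hinj : (Measure.map (idv m) (volume : Measure (Fin (m + 3) → ℂ))).IsAddHaarMeasure :=
      ContinuousLinearEquiv.isAddHaarMeasure_map _ _
    have h2 : (volume : Measure ((ℝ × ℂ) × Par m)) ≪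
        Measure.map (idv m) (volume : Measure (Fin (m + 3) → ℂ)) :=
      Measure.absolutelyContinuous_isAddHaarMeasure _ _
    apply h2
    have h4 : MeasurableEmbedding (idv m) := (idv m).toHomeomorph.measurableEmbedding
    rw [h4.map_apply, Set.preimage_image_eq _ (idv m).injective]
    exact hN
  have h10 := sard_null volume hUo hUc.isPreconnected hF hne h9
  refine measure_mono_null ?_ h10
  rintro p ⟨hp1, hp2⟩
  exact ⟨hp1, mot p, hp2, rfl⟩

/-- a null set of polygons does not contain almost all polygons in normal position, after a fixed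
motion -/
theorem exists_motion {m : ℕ} {N : Set (Fin (m + 3) → ℂ)} (hN : volume N = 0) :
    ∃ a u : ℂ, ‖u‖ = 1 ∧ (volume : Measure (Par m))
      {e | 0 < e.1 ∧ (fun i => a + u * sv e i) ∈ N} = 0 := by
  have h1 := mot_null hN
  rw [Measure.volume_eq_prod] at h1
  have h2 := Measure.measure_ae_null_of_prod_null h1
  obtain ⟨p, hp⟩ := h2.exists
  refine ⟨p.2, Complex.exp (p.1 * I), Complex.norm_exp_ofReal_mul_I _, ?_⟩
  exact hp

theorem nlift : NLiftStatement := by
  intro n hn G hG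
  obtain ⟨m, rfl⟩ : ∃ m, n = m + 3 := ⟨n - 3, by omega⟩
  obtain ⟨M⟩ := model_exists
  obtain ⟨x, hx, σ, hσ, e₀, he₀, hreg₀⟩ := exists_regular M m
  have hdet₀ := det_Fh M hx hσ he₀ hreg₀
  choose X hX using fun m' => (exists_regular M m')
  have hXn : ∀ m', IsNodes (X m') := fun m' => (hX m').1
  obtain ⟨a, u, hu, hau⟩ := exists_motion (N := {v | ¬ (CCW v → G v)}) hG
  set B : Set (Par m) := {e | e ∈ FanPos m ∧ (fun i => a + u * sv e i) ∈ {v | ¬ (CCW v → G v)}}
    with hB
  have hB0 : volume B = 0 := by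
    refine measure_mono_null ?_ hau
    rintro e ⟨he1, he2⟩
    exact ⟨he1.1, he2⟩
  set Bad : Set (Par m) := Fh M x σ '' B with hBad
  set Low : Set (Par m) := ⋃ m' : Fin m, (fun e : Par m' => idn m (dat M (X m') σ e)) ''
    FanPos (m' : ℕ) with hLow
  have hBad0 : volume Bad = 0 := by
    apply addHaar_image_eq_zero_of_differentiableOn_of_addHaar_eq_zero
    · intro e he
      exact (Fh_analytic M hx hσ e he.1).differentiableAt.differentiableWithinAt
    · exact hB0
  have hLow0 : volume Low = 0 := by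
    apply measure_iUnion_null
    intro m'
    apply low_dim_null volume _ (fanPos_open _)
    · intro e he
      exact ((idn m : (Fin (2 * m + 3) → ℝ) →L[ℝ] Par m).analyticAt _).comp
        (dat_analytic M (hXn m') hσ e he)
    · rw [finrank_Par, finrank_Par]
      have := m'.2
      omega
  have hN0 : volume (Bad ∪ Low) = 0 := measure_union_null hBad0 hLow0
  have hsard := sard_null volume (fanPos_open m) (fanPos_preconnected m) (Fh_analytic M hx hσ)
    ⟨e₀, he₀, hdet₀⟩ hN0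
  have hp : ∀ᵐ e : Par m, e ∈ {e : Par m | ¬ (e ∈ FanPos m ∧ Fh M x σ e ∈ Bad ∪ Low)} := by
    rw [ae_iff]
    have e1 : {a : Par m | a ∉ {e : Par m | ¬ (e ∈ FanPos m ∧ Fh M x σ e ∈ Bad ∪ Low)}}
        = {e | e ∈ FanPos m ∧ Fh M x σ e ∈ Bad ∪ Low} := by
      ext e
      exact not_not
    rw [e1]
    exact hsard
  filter_upwards [ae_nz hp, hG] with v hv hGv hccw
  refine ⟨hGv hccw, ?_⟩
  obtain ⟨h1, h2, h3, h4, h5⟩ := ccw_nz hccw
  have hFan := mem_FanPos h2 h3
  have hgen : Fh M x σ (nz v) ∉ Bad ∪ Low := fun hmem => hv h1 ⟨hFan, hmem⟩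
  have hIso : Iso (dirEig (poly v)) (nz v) := ⟨h2, h3, h5⟩
  intro m₁ hm₁ hm₂ w hw hwk
  obtain ⟨m', rfl⟩ : ∃ m', m₁ = m' + 3 := ⟨m₁ - 3, by omega⟩
  obtain ⟨g1, g2, g3, g4, g5⟩ := ccw_nz hw
  have gI : Iso (dirEig (poly v)) (nz w) := ⟨g2, g3, fun k => by rw [g5, hwk k]⟩
  have hm' : m' = m := by
    by_contra hne
    apply hgen
    right
    rw [hLow, Set.mem_iUnion]
    refine ⟨⟨m', by omega⟩, nz w, mem_FanPos g2 g3, ?_⟩
    show idn m (dat M (X m') σ (nz w)) = idn m (dat M x σ (nz v))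
    rw [dat_eq M (hXn m') hx gI hIso hσ]
  subst hm'
  refine ⟨rfl, ?_⟩
  set c : Fin (m' + 3) → ℂ := fun i => a + u * sv (nz w) i with hc
  have hcG : CCW c → G c := by
    by_contra hcon
    apply hgen
    left
    refine ⟨nz w, ⟨mem_FanPos g2 g3, hcon⟩, ?_⟩
    rw [Fh, Fh, dat_eq M hx hx gI hIso hσ]
  have hcc : CCW c := ccw_copy g3 a hu
  refine ⟨a - u * (w 0 * dirv (w 0) (w 1)), u * dirv (w 0) (w 1), ?_, ?_⟩
  · rw [norm_mul, hu, norm_dirv g1, one_mul]
  · have h6 : (fun i => a - u * (w 0 * dirv (w 0) (w 1)) +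
        u * dirv (w 0) (w 1) * w (Fin.cast rfl i)) = c := by
      funext i
      rw [hc]
      simp only [Fin.cast_eq_self]
      rw [sv_nz g1 i]
      ring
    rw [h6]
    exact hcG hcc

end Pool.Agent.AEU.H1
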